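import Pool.Agent.H48G.Parity

/-! The prime-free interval for given `N`, `d`. -/

open Polynomial Finset

namespace Pool.Agent.H48G

variable {F : Type*} [Field F] [Fintype F]

/-- Product of all monic polynomials of degree `d` whose lower exponents lie in `I`. -/
noncomputable def fam (F : Type*) [Field F] [Fintype F] (d : ℕ) (I : Finset ℕ) : F[X] :=
  ∏ c : I → F, (X ^ d + ∑ i : I, monomial (i : ℕ) (c i))

omit [Fintype F] in
lemma low_degree {d : ℕ} {I : Finset ℕ} (hI : ∀ i ∈ I, i < d) (c : I → F) :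
    (∑ i : I, monomial (i : ℕ) (c i) : F[X]).degree < d := by
  refine (degree_sum_le _ _).trans_lt ?_
  refine (Finset.sup_lt_iff (WithBot.bot_lt_coe d)).mpr ?_
  intro i _
  exact (degree_monomial_le _ _).trans_lt (WithBot.coe_lt_coe.mpr (hI i i.2))

omit [Fintype F] in
lemma natDegree_X_pow_add_low {d : ℕ} {g : F[X]} (hg : g.degree < d) :
    (X ^ d + g).natDegree = d := by
  have h1 : g.degree < (X ^ d : F[X]).degree := by rwa [degree_X_pow]
  have : (X ^ d + g).degree = (d : WithBot ℕ) := by
    rw [degree_add_eq_left_of_degree_lt h1, degree_X_pow]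
  exact natDegree_eq_of_degree_eq_some this

lemma fam_monic {d : ℕ} {I : Finset ℕ} (hI : ∀ i ∈ I, i < d) : (fam F d I).Monic :=
  monic_prod_of_monic _ _ fun c _ => monic_X_pow_add (low_degree hI c)

lemma fam_natDegree {d : ℕ} {I : Finset ℕ} (hI : ∀ i ∈ I, i < d) :
    (fam F d I).natDegree = d * Fintype.card F ^ #I := by
  unfold fam
  rw [natDegree_prod_of_monic _ _ fun c _ => monic_X_pow_add (low_degree hI c),
    Finset.sum_congr rfl fun c _ => natDegree_X_pow_add_low (low_degree hI c)]
  simp [mul_comm]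

lemma dvd_fam {d : ℕ} {I : Finset ℕ} (hI : ∀ i ∈ I, i < d) {r : F[X]} (hr : r.Monic)
    (hd : r.natDegree = d) (h0 : ∀ i < d, i ∉ I → r.coeff i = 0) : r ∣ fam F d I := by
  have e : r = X ^ d + ∑ i : I, monomial (i : ℕ) (r.coeff i) := by
    ext n
    rw [coeff_add, coeff_X_pow, finsetSum_coeff,
      Finset.sum_coe_sort I (fun i => (monomial i (r.coeff i) : F[X]).coeff n)]
    simp only [coeff_monomial]
    rw [Finset.sum_ite_eq']
    rcases lt_trichotomy n d with h | h | h
    · rw [if_neg h.ne, zero_add]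
      split_ifs with hn
      · rfl
      · exact h0 n h hn
    · subst h
      rw [if_pos rfl, if_neg (fun hn => lt_irrefl _ (hI _ hn)), add_zero, ← hd]
      exact hr
    · rw [if_neg h.ne', if_neg (fun hn => lt_asymm h (hI _ hn)), add_zero]
      exact coeff_eq_zero_of_natDegree_lt (hd ▸ h)
  unfold fam
  have := Finset.dvd_prod_of_mem
    (fun c : I → F => (X ^ d + ∑ i : I, monomial (i : ℕ) (c i) : F[X]))
    (mem_univ fun i : I => r.coeff i)
  exact e ▸ this

omit [Fintype F] in
lemma coeff_euler (G : F[X]) (c : F) (i : ℕ) :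
    (X * derivative G - C c * G).coeff i = ((i : F) - c) * G.coeff i := by
  rw [coeff_sub, coeff_C_mul]
  rcases i with _ | i
  · simp
  · rw [coeff_X_mul, coeff_derivative]
    push_cast
    ring

theorem construct (p : ℕ) [CharP F p] (hp : 2 ≤ p) (h2 : (2 : F) ≠ 0) {N d : ℕ} (hd : 1 ≤ d)
    (hd4 : d % 4 = (N + 1) % 4) (hdp : (d : F) = N + 1)
    (hb : 2 * p * d * Fintype.card F ^ (d - d / p) < N) :
    ∃ f₀ : F[X], f₀.Monic ∧ f₀.natDegree = N ∧
      ∀ g : F[X], g.degree < d → ¬ Irreducible (f₀ + g) := by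
  classical
  set q := Fintype.card F with hq
  have hq1 : 1 ≤ q := Fintype.card_pos
  have hp0 : ((p : ℕ) : F) = 0 := CharP.cast_eq_zero F p
  let J : Finset ℕ := (range (d / p)).image fun j => d - 1 - p * j
  let I : Finset ℕ := range d \ J
  have hj : ∀ j < d / p, p * j + p ≤ d := fun j hj =>
    calc p * j + p = p * (j + 1) := by ring
      _ ≤ p * (d / p) := Nat.mul_le_mul_left _ hj
      _ ≤ d := Nat.mul_div_le d p
  have hJ : #J = d / p := by
    rw [Finset.card_image_of_injOn, card_range]
    intro a ha b hb hab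
    have h1 := hj a (by simpa using ha)
    have h2 := hj b (by simpa using hb)
    have h3 : p * a = p * b := by
      simp only at hab
      omega
    exact Nat.eq_of_mul_eq_mul_left (by omega) h3
  have hJs : J ⊆ range d := by
    intro i hi
    obtain ⟨j, _, rfl⟩ := mem_image.mp hi
    rw [mem_range]
    omega
  have hI : #I = d - d / p := by rw [Finset.card_sdiff_of_subset hJs, card_range, hJ]
  have hIlt : ∀ i ∈ I, i < d := fun i hi => mem_range.mp (mem_sdiff.mp hi).1
  have hR : ∀ i ∈ range (d / 2), i < d / 2 := fun i hi => mem_range.mp hi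
  let ψ : F[X] := fam F (d / 2) (range (d / 2)) * fam F d I
  have hψm : ψ.Monic := (fam_monic hR).mul (fam_monic hIlt)
  have hψd : ψ.natDegree ≤ 2 * d * q ^ (d - d / p) := by
    rw [(fam_monic hR).natDegree_mul (fam_monic hIlt), fam_natDegree hR, fam_natDegree hIlt,
      card_range, hI]
    have h1 : d / p ≤ d / 2 := Nat.div_le_div_left hp (by norm_num)
    have h3 : q ^ (d / 2) ≤ q ^ (d - d / p) := Nat.pow_le_pow_right hq1 (by omega)
    have h4 : d / 2 * q ^ (d / 2) ≤ d * q ^ (d - d / p) := Nat.mul_le_mul (by omega) h3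
    rw [← hq]
    nlinarith
  have hlt : p * ψ.natDegree < N := by
    refine lt_of_le_of_lt ?_ hb
    calc p * ψ.natDegree ≤ p * (2 * d * q ^ (d - d / p)) := Nat.mul_le_mul_left _ hψd
      _ = 2 * p * d * q ^ (d - d / p) := by ring
  have hdN : d < N := by
    refine lt_of_le_of_lt ?_ hb
    have : 1 ≤ q ^ (d - d / p) := Nat.one_le_pow _ _ hq1
    calc d = 1 * d * 1 := by ring
      _ ≤ 2 * p * d * q ^ (d - d / p) := by gcongr; omega
  obtain ⟨e, he⟩ : ∃ e, N = e + 1 + p * ψ.natDegree := ⟨N - 1 - p * ψ.natDegree, by omega⟩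
  let A : F[X] := X ^ (e + 1) * ψ ^ p
  have hAm : A.Monic := (monic_X_pow _).mul (hψm.pow _)
  have hAd : A.natDegree = N := by
    rw [(monic_X_pow _).natDegree_mul (hψm.pow _), natDegree_X_pow, hψm.natDegree_pow, he]
  have hAe : X * derivative A - C (N : F) * A = 0 := by
    have hN : (N : F) = (e : F) + 1 := by
      rw [he]; push_cast; rw [hp0]; ring
    have h1 : derivative (ψ ^ p) = 0 := by
      rw [derivative_pow, hp0]; simp
    rw [hN, derivative_mul, h1, derivative_X_pow]
    simp only [A, Nat.add_sub_cancel, Nat.cast_add, Nat.cast_one]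
    ring
  have hψA : ψ ∣ A := Dvd.dvd.mul_left (dvd_pow_self ψ (by omega)) _
  have hXA : X ∣ A := Dvd.dvd.mul_right (dvd_pow_self X (by omega)) _
  have hadd : ∀ G : F[X], G.natDegree = d → (A + G).Monic ∧ (A + G).natDegree = N := by
    intro G hG
    have hlt' : G.natDegree < A.natDegree := by omega
    exact ⟨hAm.add_of_left (degree_lt_degree hlt'),
      by rw [natDegree_add_eq_left_of_natDegree_lt hlt', hAd]⟩
  refine ⟨A + X ^ d, (hadd _ (natDegree_X_pow d)).1, (hadd _ (natDegree_X_pow d)).2, ?_⟩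
  intro g hg hirr
  rw [add_assoc] at hirr
  set G : F[X] := X ^ d + g with hG
  have hGm : G.Monic := monic_X_pow_add hg
  have hGd : G.natDegree = d := natDegree_X_pow_add_low hg
  obtain ⟨hfm, hfd⟩ := hadd G hGd
  have hcop : ∀ r : F[X], r ∣ A → r ∣ G → IsUnit r := by
    intro r h1 h2
    rcases hirr.dvd_iff.mp (dvd_add h1 h2) with h | h
    · exact h
    · have := natDegree_le_of_dvd (h.dvd.trans h2) hGm.ne_zero
      omega
  have hGirr : Irreducible G := by
    have hG1 : G ≠ 1 := by
      intro h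
      rw [h, natDegree_one] at hGd
      omega
    rw [hGm.irreducible_iff_lt_natDegree_lt hG1]
    intro r hr hrd hrG
    rw [hGd, Finset.mem_Ioc] at hrd
    have h1 : r * X ^ (d / 2 - r.natDegree) ∣ fam F (d / 2) (range (d / 2)) := by
      refine dvd_fam hR (hr.mul (monic_X_pow _)) ?_ fun i hi hi' => absurd (mem_range.mpr hi) hi'
      rw [hr.natDegree_mul (monic_X_pow _), natDegree_X_pow]
      omega
    have h2 : r ∣ A := (((dvd_mul_right r _).trans h1).trans (dvd_mul_right _ _)).trans hψA
    have := natDegree_eq_zero_of_isUnit (hcop r h2 hrG)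
    omega
  have hG0 : G.eval 0 ≠ 0 := by
    intro h
    have : X ∣ G := by rwa [X_dvd_iff, coeff_zero_eq_eval_zero]
    exact not_isUnit_X (hcop X hXA this)
  let h : F[X] := X * derivative G - C (N : F) * G
  have hle : h.natDegree ≤ d := by
    rw [natDegree_le_iff_coeff_eq_zero]
    intro i hi
    rw [coeff_euler, coeff_eq_zero_of_natDegree_lt (hGd ▸ hi), mul_zero]
  have htop : h.coeff d = 1 := by
    have : G.coeff d = 1 := by rw [← hGd]; exact hGm
    rw [coeff_euler, this, hdp]
    ring
  have hhm : h.Monic := monic_of_natDegree_le_of_coeff_eq_one d hle htop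
  have hhd : h.natDegree = d :=
    natDegree_eq_of_le_of_coeff_ne_zero hle (by rw [htop]; exact one_ne_zero)
  have hhA : h ∣ A := by
    refine ((dvd_fam hIlt hhm hhd ?_).trans (dvd_mul_left _ _)).trans hψA
    intro i hi hi'
    have hiJ : i ∈ J := by
      by_contra hn
      exact hi' (mem_sdiff.mpr ⟨mem_range.mpr hi, hn⟩)
    obtain ⟨j, hj', rfl⟩ := mem_image.mp hiJ
    have h1 := hj j (mem_range.mp hj')
    have h3 : ((d - 1 - p * j : ℕ) : F) = N := by
      have h4 : d = (d - 1 - p * j) + 1 + p * j := by omega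
      have h5 := congrArg (Nat.cast : ℕ → F) h4
      push_cast at h5
      rw [hp0, hdp] at h5
      linear_combination -h5
    rw [coeff_euler, h3, sub_self, zero_mul]
  refine parity h2 (f := A + G) (g := G) (h := h) (c := (N : F)) hfm hGm hhm (hhd.trans hGd.symm)
    (by rw [hGd, hfd]; exact hd4) ?_ rfl (by simpa using hhA) ?_ hG0 hirr hGirr
  · rw [derivative_add]
    simp only [h]
    linear_combination hAe
  · obtain ⟨k, hk⟩ := hXA
    rw [eval_add, hk]
    simp

end Pool.Agent.H48G
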