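import Pool.Agent.H48G.Construct

/-! Choice of `d` and the size estimate. -/

open Polynomial

namespace Pool.Agent.H48G

lemma choose_d {p q : ℕ} (hp : 2 ≤ p) (hq : 1 ≤ q) {N : ℕ} (hN : 2 * p * (8 * p) * q ^ (8 * p) < N) :
    ∃ d : ℕ, 1 ≤ d ∧ d % (4 * p) = (N + 1) % (4 * p) ∧ 2 * p * d * q ^ (d - d / p) < N ∧
      N ≤ 2 * p * (d + 4 * p) * q ^ (d + 4 * p - (d + 4 * p) / p) := by
  classical
  set r := (N + 1) % (4 * p) with hr
  have hr' : r < 4 * p := Nat.mod_lt _ (by omega)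
  let D : ℕ → ℕ := fun j => r + 4 * p * (j + 1)
  let P : ℕ → Prop := fun j => N ≤ 2 * p * D j * q ^ (D j - D j / p)
  have hex : ∃ j, P j := by
    refine ⟨N, ?_⟩
    have h1 : 1 ≤ q ^ (D N - D N / p) := Nat.one_le_pow _ _ hq
    have h2 : N ≤ D N := by
      simp only [D]
      nlinarith
    calc N = 1 * N * 1 := by ring
      _ ≤ 2 * p * D N * q ^ (D N - D N / p) := by gcongr; omega
  have h0 : ¬ P 0 := by
    simp only [P, not_le]
    refine lt_of_le_of_lt ?_ hN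
    have h1 : D 0 ≤ 8 * p := by
      simp only [D]
      omega
    have h2 : q ^ (D 0 - D 0 / p) ≤ q ^ (8 * p) :=
      Nat.pow_le_pow_right hq ((Nat.sub_le _ _).trans h1)
    gcongr
  obtain ⟨j, hj⟩ : ∃ j, Nat.find hex = j + 1 := by
    refine ⟨Nat.find hex - 1, ?_⟩
    have : Nat.find hex ≠ 0 := fun h => h0 (h ▸ Nat.find_spec hex)
    omega
  have h1 : P (j + 1) := hj ▸ Nat.find_spec hex
  have h2 : ¬ P j := Nat.find_min hex (by omega)
  refine ⟨D j, ?_, ?_, not_le.mp h2, ?_⟩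
  · simp only [D]
    nlinarith
  · simp only [D]
    rw [Nat.add_mul_mod_self_left, hr, Nat.mod_mod]
  · have : D (j + 1) = D j + 4 * p := by
      simp only [D]
      ring
    rw [← this]
    exact h1

lemma size_bound {p q : ℕ} (hp : 2 ≤ p) (hq : 2 ≤ q) {N d : ℕ} (hN : 3 ≤ N) (hd : 1 ≤ d)
    (h1 : 2 * p * d * q ^ (d - d / p) < N)
    (h2 : N ≤ 2 * p * (d + 4 * p) * q ^ (d + 4 * p - (d + 4 * p) / p)) :
    ((N : ℝ) / Real.log N) ^ ((p : ℝ) / (p - 1)) ≤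
      ((2 * p * (3 + 4 * p) * q ^ (4 * p) : ℝ)) ^ ((p : ℝ) / (p - 1)) * (q : ℝ) ^ d := by
  have hp' : (2 : ℝ) ≤ p := by exact_mod_cast hp
  have hq' : (2 : ℝ) ≤ q := by exact_mod_cast hq
  have hN' : (3 : ℝ) ≤ N := by exact_mod_cast hN
  have hlog : 1 ≤ Real.log N := by
    rw [Real.le_log_iff_exp_le (by linarith)]
    have := Real.exp_one_lt_d9
    linarith
  have hdlog : (d : ℝ) ≤ 3 * Real.log N := by
    have a1 : d / p ≤ d / 2 := Nat.div_le_div_left hp (by norm_num)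
    have a2 : 2 ^ (d - d / p) ≤ q ^ (d - d / p) := Nat.pow_le_pow_left hq _
    have a3 : q ^ (d - d / p) ≤ N := by
      refine le_trans ?_ h1.le
      exact Nat.le_mul_of_pos_left _ (by positivity)
    have a4 : ((2 : ℝ)) ^ (d - d / p) ≤ N := by exact_mod_cast a2.trans a3
    have a5 := Real.log_le_log (by positivity) a4
    rw [Real.log_pow] at a5
    have a6 : d ≤ 2 * (d - d / p) := by omega
    have a7 : (d : ℝ) ≤ 2 * ((d - d / p : ℕ) : ℝ) := by exact_mod_cast a6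
    have a8 := Real.log_two_gt_d9
    have a9 : (0 : ℝ) ≤ ((d - d / p : ℕ) : ℝ) := Nat.cast_nonneg _
    nlinarith
  set k := d + 4 * p - (d + 4 * p) / p with hk
  have hkle : (k : ℝ) ≤ 4 * p + d * ((p - 1) / p) := by
    have b1 : (d + 4 * p) / p = d / p + 4 := Nat.add_mul_div_right d 4 (by omega)
    have b2 : d / p ≤ d := Nat.div_le_self _ _
    have b3 : k + (d / p + 4) = d + 4 * p := by omega
    have b4 : d < p * (d / p + 1) := Nat.lt_mul_div_succ d (by omega)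
    have b5 : (k : ℝ) + (((d / p : ℕ) : ℝ) + 4) = d + 4 * p := by exact_mod_cast b3
    have b6 : (d : ℝ) < p * (((d / p : ℕ) : ℝ) + 1) := by exact_mod_cast b4
    have b7 : (d : ℝ) / p ≤ ((d / p : ℕ) : ℝ) + 1 := by
      rw [div_le_iff₀ (by linarith)]
      linarith
    have b8 : (d : ℝ) * ((p - 1) / p) = d - d / p := by
      field_simp
    linarith
  have hpow : (q : ℝ) ^ k ≤ (q : ℝ) ^ (4 * p) * ((q : ℝ) ^ d) ^ (((p : ℝ) - 1) / p) := by
    rw [← Real.rpow_natCast, ← Real.rpow_natCast (q : ℝ) (4 * p), ← Real.rpow_natCast (q : ℝ) d,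
      ← Real.rpow_mul (by linarith), ← Real.rpow_add (by linarith)]
    refine Real.rpow_le_rpow_of_exponent_le (by linarith) ?_
    push_cast
    exact hkle
  have h2' : (N : ℝ) ≤ 2 * p * (d + 4 * p) * (q : ℝ) ^ k := by exact_mod_cast h2
  have hmain : (N : ℝ) / Real.log N ≤
      (2 * p * (3 + 4 * p) * q ^ (4 * p) : ℝ) * ((q : ℝ) ^ d) ^ (((p : ℝ) - 1) / p) := by
    rw [div_le_iff₀ (by linarith)]
    have c1 : (d : ℝ) + 4 * p ≤ (3 + 4 * p) * Real.log N := by nlinarith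
    calc (N : ℝ) ≤ 2 * p * (d + 4 * p) * (q : ℝ) ^ k := h2'
      _ ≤ 2 * p * ((3 + 4 * p) * Real.log N) *
          ((q : ℝ) ^ (4 * p) * ((q : ℝ) ^ d) ^ (((p : ℝ) - 1) / p)) := by gcongr
      _ = _ := by ring
  have hp1 : (0 : ℝ) < p - 1 := by linarith
  calc ((N : ℝ) / Real.log N) ^ ((p : ℝ) / (p - 1))
      ≤ ((2 * p * (3 + 4 * p) * q ^ (4 * p) : ℝ) * ((q : ℝ) ^ d) ^ (((p : ℝ) - 1) / p)) ^
          ((p : ℝ) / (p - 1)) := Real.rpow_le_rpow (by positivity) hmain (by positivity)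
    _ = _ := by
      rw [Real.mul_rpow (by positivity) (by positivity), ← Real.rpow_mul (by positivity)]
      have : ((p : ℝ) - 1) / p * (p / (p - 1)) = 1 := by field_simp
      rw [this, Real.rpow_one]

theorem main (F : Type*) [Field F] [Fintype F] (p : ℕ) [CharP F p] (hp : p ≠ 2) :
    ∃ c : ℝ, 0 < c ∧ ∃ N₀ : ℕ, ∀ N : ℕ, N₀ ≤ N → ∃ (d : ℕ) (f₀ : F[X]),
      f₀.Monic ∧ f₀.natDegree = N ∧ d < N ∧
      c * ((N : ℝ) / Real.log N) ^ ((p : ℝ) / (p - 1)) ≤ (Fintype.card F : ℝ) ^ d ∧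
      ∀ g : F[X], g.degree < (d : WithBot ℕ) → ¬ Irreducible (f₀ + g) := by
  have hprime : p.Prime := CharP.char_is_prime F p
  have hp2 : 2 ≤ p := hprime.two_le
  have hq : 2 ≤ Fintype.card F := Fintype.one_lt_card
  have h2 : (2 : F) ≠ 0 := by
    intro h
    have h' : ((2 : ℕ) : F) = 0 := by exact_mod_cast h
    rw [CharP.cast_eq_zero_iff F p] at h'
    exact hp ((Nat.prime_dvd_prime_iff_eq hprime Nat.prime_two).mp h')
  set q := Fintype.card F with hqd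
  have hK : (0 : ℝ) < ((2 * p * (3 + 4 * p) * q ^ (4 * p) : ℝ)) ^ ((p : ℝ) / (p - 1)) := by
    have : (0 : ℝ) < p := by exact_mod_cast hprime.pos
    have : (0 : ℝ) < q := by exact_mod_cast (by omega : 0 < q)
    positivity
  refine ⟨_, inv_pos.mpr hK, 2 * p * (8 * p) * q ^ (8 * p) + 3, fun N hN => ?_⟩
  obtain ⟨d, hd, hmod, h1, h3⟩ := choose_d hp2 (by omega : 1 ≤ q) (N := N) (by omega)
  have hd4 : d % 4 = (N + 1) % 4 := by
    rw [← Nat.mod_mod_of_dvd d (Dvd.intro p rfl : 4 ∣ 4 * p), hmod,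
      Nat.mod_mod_of_dvd _ (Dvd.intro p rfl : 4 ∣ 4 * p)]
  have hdp : (d : F) = N + 1 := by
    have : d ≡ N + 1 [MOD p] := Nat.ModEq.of_mul_left 4 hmod
    have h4 := (CharP.natCast_eq_natCast F p).mpr this
    rw [h4]
    push_cast
    rfl
  obtain ⟨f₀, hm, hdeg, hirr⟩ := construct (F := F) p hp2 h2 hd hd4 hdp h1
  refine ⟨d, f₀, hm, hdeg, ?_, ?_, hirr⟩
  · refine lt_of_le_of_lt ?_ h1
    have : 1 ≤ q ^ (d - d / p) := Nat.one_le_pow _ _ (by omega)
    calc d = 1 * d * 1 := by ring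
      _ ≤ 2 * p * d * q ^ (d - d / p) := by gcongr; omega
  · rw [inv_mul_le_iff₀ hK]
    exact size_bound hp2 hq (by omega) hd h1 h3

end Pool.Agent.H48G
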