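import Mathlib

/-! Pellet-Stickelberger parity in odd characteristic, and the discriminant identity. -/

open Polynomial Finset

namespace Pool.Agent.H48G

section Pr

variable {K : Type*} [Field K]

/-- Product of the values of `b` at the roots of `a`. -/
noncomputable def pr (a b : K[X]) : K := (a.roots.map b.eval).prod

lemma pr_congr {a b c : K[X]} (h : ∀ x ∈ a.roots, b.eval x = c.eval x) : pr a b = pr a c := by
  unfold pr
  rw [Multiset.map_congr rfl h]

lemma pr_mul (a b c : K[X]) : pr a (b * c) = pr a b * pr a c := by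
  unfold pr
  rw [← Multiset.prod_map_mul]
  exact congrArg _ (Multiset.map_congr rfl fun x _ => eval_mul)

lemma pr_comm [IsAlgClosed K] {a b : K[X]} (ha : a.Monic) (hb : b.Monic) :
    pr a b = (-1) ^ (a.natDegree * b.natDegree) * pr b a := by
  have h1 := resultant_eq_prod_eval a b b.natDegree le_rfl (IsAlgClosed.splits a)
  have h2 := resultant_eq_prod_eval b a a.natDegree le_rfl (IsAlgClosed.splits b)
  rw [ha.leadingCoeff, one_pow, one_mul] at h1
  rw [hb.leadingCoeff, one_pow, one_mul] at h2
  unfold pr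
  rw [← h1, ← h2, resultant_comm]

lemma pr_X [IsAlgClosed K] {a : K[X]} (ha : a.Monic) :
    pr a X = (-1) ^ a.natDegree * a.eval 0 := by
  rw [pr_comm ha monic_X, natDegree_X, mul_one]
  simp [pr, roots_X]

lemma pr_euler {a h : K[X]} {c : K} (e : X * derivative a - C c * a = h) :
    pr a X * pr a (derivative a) = pr a h := by
  rw [← pr_mul]
  refine pr_congr fun x hx => ?_
  have h0 : a.eval x = 0 := isRoot_of_mem_roots hx
  rw [← e]
  simp [h0]

lemma pr_identity [IsAlgClosed K] {f g h : K[X]} {c : K} (hf : f.Monic) (hg : g.Monic)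
    (hh : h.Monic) (hd : h.natDegree = g.natDegree) (hodd : Odd (f.natDegree + g.natDegree))
    (ef : X * derivative f - C c * f = h) (eg : X * derivative g - C c * g = h)
    (hdvd : h ∣ f - g) (h0 : f.eval 0 = g.eval 0) (h0' : g.eval 0 ≠ 0) :
    pr f (derivative f) = (-1) ^ f.natDegree * pr g (derivative g) := by
  have a1 := pr_euler ef
  have a2 := pr_euler eg
  have a3 : pr h f = pr h g := by
    refine pr_congr fun x hx => ?_
    have hx0 : h.eval x = 0 := isRoot_of_mem_roots hx
    obtain ⟨k, hk⟩ := hdvd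
    have := congrArg (eval x) hk
    rw [eval_sub, eval_mul, hx0, zero_mul, sub_eq_zero] at this
    exact this
  rw [pr_comm hf hh, pr_X hf, a3, hd, h0] at a1
  rw [pr_comm hg hh, pr_X hg, hd] at a2
  have e1 : Even (f.natDegree * g.natDegree) := by
    rcases Nat.even_or_odd f.natDegree with h1 | h1
    · exact h1.mul_right _
    · have : Even g.natDegree := by
        rcases Nat.even_or_odd g.natDegree with h2 | h2
        · exact h2
        · exact absurd hodd (Nat.not_odd_iff_even.mpr (h1.add_odd h2))
      exact this.mul_left _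
  rw [e1.neg_one_pow, one_mul] at a1
  have a4 : g.eval 0 * pr g (derivative g) = pr h g := by
    rcases Nat.even_or_odd g.natDegree with h2 | h2
    · rw [h2.neg_one_pow, (h2.mul_left _).neg_one_pow] at a2
      simpa using a2
    · rw [h2.neg_one_pow, (h2.mul h2).neg_one_pow] at a2
      linear_combination -a2
  apply mul_left_cancel₀ h0'
  rcases Nat.even_or_odd f.natDegree with h1 | h1
  · rw [h1.neg_one_pow] at a1 ⊢
    linear_combination a1 - a4
  · rw [h1.neg_one_pow] at a1 ⊢
    linear_combination -a1 + a4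

lemma sum_card_Ioi (n : ℕ) : ∑ i : Fin n, #(Ioi i) = n * (n - 1) / 2 := by
  simp_rw [Fin.card_Ioi]
  rw [Fin.sum_univ_eq_sum_range (fun i => n - 1 - i) n, Finset.sum_range_reflect (fun i => i) n,
    Finset.sum_range_id]

lemma vandermonde_sq {n : ℕ} (v : Fin n → K) (a : K[X]) (ha : a = Lagrange.nodal univ v) :
    (Matrix.vandermonde v).det ^ 2 = (-1) ^ (n * (n - 1) / 2) * pr a (derivative a) := by
  classical
  have hr : a.roots = (univ : Finset (Fin n)).val.map v := by
    rw [ha, Lagrange.nodal, Finset.prod_eq_multiset_prod]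
    have := roots_multiset_prod_X_sub_C ((univ : Finset (Fin n)).val.map v)
    rw [Multiset.map_map] at this
    exact this
  have hp : pr a (derivative a) = ∏ i : Fin n, ∏ j ∈ ({i}ᶜ : Finset (Fin n)), (v i - v j) := by
    unfold pr
    rw [hr, Multiset.map_map, Finset.prod_eq_multiset_prod]
    refine congrArg _ (Multiset.map_congr rfl fun i _ => ?_)
    simp only [Function.comp]
    rw [ha, Lagrange.eval_nodal_derivative_eval_node_eq (mem_univ i), Lagrange.eval_nodal]
    refine Finset.prod_congr ?_ fun _ _ => rfl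
    ext j
    simp
  rw [hp, ← prod_prod_Ioi_mul_eq_prod_prod_off_diag (fun j i => v i - v j), Matrix.det_vandermonde,
    ← sum_card_Ioi, ← Finset.prod_pow_eq_pow_sum, ← Finset.prod_mul_distrib, ← Finset.prod_pow]
  refine Finset.prod_congr rfl fun i _ => ?_
  rw [← Finset.prod_const, ← Finset.prod_mul_distrib, ← Finset.prod_pow]
  refine Finset.prod_congr rfl fun j _ => ?_
  ring

end Pr

section Frob

variable {F : Type*} [Field F] [Fintype F] {K : Type*} [Field K] [Algebra F K] [IsAlgClosed K]

lemma exists_cycle {f : F[X]} (hi : Irreducible f) :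
    ∃ α : K, aeval α f = 0 ∧ α ^ (Fintype.card F ^ f.natDegree) = α ∧
      Function.Injective fun i : Fin f.natDegree => α ^ (Fintype.card F ^ (i : ℕ)) := by
  classical
  have := Fact.mk hi
  let L := AdjoinRoot f
  have : Module.Finite F L := (AdjoinRoot.powerBasis hi.ne_zero).finite
  have : Finite L := Module.finite_of_finite F
  have hfr : Module.finrank F L = f.natDegree := by
    rw [(AdjoinRoot.powerBasis hi.ne_zero).finrank, AdjoinRoot.powerBasis_dim]
  let j : L →ₐ[F] K := IsAlgClosed.lift
  have hpow : ∀ (m : ℕ) (x : L), (FiniteField.frobeniusAlgHom F L ^ m) x =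
      x ^ (Fintype.card F ^ m) := by
    intro m x
    rw [AlgHom.coe_pow, FiniteField.coe_frobeniusAlgHom, pow_iterate]
  refine ⟨j (AdjoinRoot.root f), ?_, ?_, ?_⟩
  · rw [aeval_algHom_apply, AdjoinRoot.aeval_eq, AdjoinRoot.mk_self, map_zero]
  · rw [← map_pow, ← hpow, ← hfr, ← FiniteField.orderOf_frobeniusAlgHom, pow_orderOf_eq_one]
    rfl
  · intro a b hab
    simp only at hab
    rw [← map_pow, ← map_pow, ← hpow, ← hpow] at hab
    have h1 := j.injective hab
    have h2 : FiniteField.frobeniusAlgHom F L ^ (a : ℕ) = FiniteField.frobeniusAlgHom F L ^ (b : ℕ) :=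
      AdjoinRoot.algHom_ext h1
    have h3 := (FiniteField.bijective_frobeniusAlgHom_pow F L).1
      (a₁ := ⟨a, a.2.trans_eq hfr.symm⟩) (a₂ := ⟨b, b.2.trans_eq hfr.symm⟩) h2
    have h4 := congrArg Fin.val h3
    exact Fin.ext h4

lemma exists_delta {f : F[X]} (hm : f.Monic) (hi : Irreducible f) :
    ∃ δ : K, δ ≠ 0 ∧ δ ^ Fintype.card F = (-1) ^ (f.natDegree - 1) * δ ∧
      δ ^ 2 = (-1) ^ (f.natDegree * (f.natDegree - 1) / 2) *
        pr (f.map (algebraMap F K)) (derivative (f.map (algebraMap F K))) := by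
  classical
  obtain ⟨α, h0, hper, hinj⟩ := exists_cycle (K := K) hi
  set n := f.natDegree with hn
  let v : Fin n → K := fun i => α ^ (Fintype.card F ^ (i : ℕ))
  let φ : K →ₐ[F] K := FiniteField.frobeniusAlgHom F K
  have hφ : ∀ x, φ x = x ^ Fintype.card F := fun x => rfl
  have hroot : ∀ m : ℕ, aeval (α ^ (Fintype.card F ^ m)) f = 0 := by
    intro m
    induction m with
    | zero => simpa using h0
    | succ m ih => rw [pow_succ, pow_mul, ← hφ, aeval_algHom_apply, ih, map_zero]
  have hnod : f.map (algebraMap F K) = Lagrange.nodal univ v := by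
    have hdvd : Lagrange.nodal univ v ∣ f.map (algebraMap F K) := by
      rw [Lagrange.nodal]
      refine Finset.prod_dvd_of_coprime ?_ ?_
      · intro a _ b _ hab
        exact pairwise_coprime_X_sub_C hinj hab
      · intro i _
        rw [dvd_iff_isRoot, IsRoot.def, eval_map_algebraMap]
        exact hroot i
    refine eq_of_monic_of_dvd_of_natDegree_le (Lagrange.nodal_monic) (hm.map _) hdvd ?_
    rw [hm.natDegree_map, Lagrange.natDegree_nodal]
    simp [hn]
  refine ⟨(Matrix.vandermonde v).det, Matrix.det_vandermonde_ne_zero_iff.mpr hinj, ?_,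
    vandermonde_sq v _ hnod⟩
  have hn0 : 0 < n := hi.natDegree_pos
  have hv : ∀ i, φ (v i) = v (finRotate n i) := by
    intro i
    obtain ⟨k, hk⟩ : ∃ k, n = k + 1 := ⟨n - 1, by omega⟩
    have key : ∀ (m : ℕ) (hm : m = k + 1) (i : Fin m), α ^ (Fintype.card F ^ m) = α →
        (α ^ (Fintype.card F ^ (i : ℕ))) ^ Fintype.card F =
          α ^ (Fintype.card F ^ ((finRotate m i : Fin m) : ℕ)) := by
      intro m hm i hp
      subst hm
      rw [← pow_mul, ← pow_succ, coe_finRotate]
      split_ifs with hl
      · rw [hl, Fin.val_last, hp]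
        simp
      · rfl
    exact key n hk i hper
  have h1 : φ (Matrix.vandermonde v).det =
      ((Matrix.vandermonde v).submatrix (finRotate n) id).det := by
    rw [AlgHom.map_det]
    congr 1
    ext i j
    simp [Matrix.vandermonde_apply, hv]
  rw [← hφ, h1, Matrix.det_permute, sign_finRotate]
  simp

end Frob

/-- The parity obstruction. -/
theorem parity {F : Type*} [Field F] [Fintype F] (h2 : (2 : F) ≠ 0) {f g h : F[X]} {c : F}
    (hf : f.Monic) (hg : g.Monic) (hh : h.Monic) (hd : h.natDegree = g.natDegree)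
    (hmod : g.natDegree % 4 = (f.natDegree + 1) % 4)
    (ef : X * derivative f - C c * f = h) (eg : X * derivative g - C c * g = h)
    (hdvd : h ∣ f - g) (h0 : f.eval 0 = g.eval 0) (h0' : g.eval 0 ≠ 0)
    (hif : Irreducible f) (hig : Irreducible g) : False := by
  let K := AlgebraicClosure F
  let ι := algebraMap F K
  obtain ⟨δ, hδ0, hδ1, hδ2⟩ := exists_delta (K := K) hf hif
  obtain ⟨η, hη0, hη1, hη2⟩ := exists_delta (K := K) hg hig
  have hN := hif.natDegree_pos
  have hD := hig.natDegree_pos
  have hodd : Odd (f.natDegree + g.natDegree) := by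
    rw [Nat.odd_iff]; omega
  have ev : ∀ a : F[X], (a.map ι).eval 0 = ι (a.eval 0) := fun a => by
    rw [eval_zero_map]
  have eul : ∀ a : F[X], X * derivative a - C c * a = h →
      X * derivative (a.map ι) - C (ι c) * a.map ι = h.map ι := fun a e => by
    rw [← e, derivative_map]
    simp
  have hid := pr_identity (f := f.map ι) (g := g.map ι) (h := h.map ι) (c := ι c) (hf.map _)
    (hg.map _) (hh.map _) (by rw [hh.natDegree_map, hg.natDegree_map, hd])
    (by rw [hf.natDegree_map, hg.natDegree_map]; exact hodd) (eul f ef) (eul g eg)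
    (by rw [← Polynomial.map_sub]; exact Polynomial.map_dvd _ hdvd)
    (by rw [ev, ev, h0]) (by rw [ev]; exact (map_ne_zero ι).mpr h0')
  rw [hf.natDegree_map] at hid
  set N := f.natDegree
  set d := g.natDegree
  have hsign : ((-1 : K)) ^ (N * (N - 1) / 2) * (-1) ^ N = (-1) ^ (d * (d - 1) / 2) := by
    rw [← pow_add, neg_one_pow_eq_pow_mod_two, neg_one_pow_eq_pow_mod_two (n := d * (d - 1) / 2)]
    congr 1
    have hpar : ∀ m : ℕ, (m * (m - 1) / 2) % 2 = (m % 4) / 2 := by
      intro m
      rcases m with _ | m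
      · rfl
      · rw [Nat.add_sub_cancel]
        have e : m = 4 * (m / 4) + m % 4 := (Nat.div_add_mod m 4).symm
        have hr : m % 4 < 4 := Nat.mod_lt _ (by norm_num)
        generalize m / 4 = k at e
        generalize m % 4 = r at e hr
        subst e
        have hk : ∀ s t : ℕ, (s + 4 * t) / 2 % 2 = s / 2 % 2 := fun s t => by omega
        interval_cases r
        · rw [show (4 * k + 0 + 1) * (4 * k + 0) = 0 + 4 * (4 * k * k + k) by ring, hk]; omega
        · rw [show (4 * k + 1 + 1) * (4 * k + 1) = 2 + 4 * (4 * k * k + 3 * k) by ring, hk]; omega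
        · rw [show (4 * k + 2 + 1) * (4 * k + 2) = 6 + 4 * (4 * k * k + 5 * k) by ring, hk]; omega
        · rw [show (4 * k + 3 + 1) * (4 * k + 3) = 12 + 4 * (4 * k * k + 7 * k) by ring, hk]; omega
    have a := hpar N
    have b := hpar d
    generalize N * (N - 1) / 2 = A at a ⊢
    generalize d * (d - 1) / 2 = B at b ⊢
    have h4 : N % 4 = 0 ∨ N % 4 = 1 ∨ N % 4 = 2 ∨ N % 4 = 3 := by omega
    rcases h4 with h4 | h4 | h4 | h4
    · have h5 : d % 4 = 1 := by omega
      rw [h4] at a; rw [h5] at b; omega
    · have h5 : d % 4 = 2 := by omega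
      rw [h4] at a; rw [h5] at b; omega
    · have h5 : d % 4 = 3 := by omega
      rw [h4] at a; rw [h5] at b; omega
    · have h5 : d % 4 = 0 := by omega
      rw [h4] at a; rw [h5] at b; omega
  have hsq : δ ^ 2 = η ^ 2 := by
    rw [hδ2, hη2, hid, ← mul_assoc, hsign]
  have h2K : (2 : K) ≠ 0 := by
    have : (2 : K) = ι 2 := (map_ofNat ι 2).symm
    rw [this]
    exact (map_ne_zero ι).mpr h2
  have hneg : ∀ x : K, (-x) ^ Fintype.card F = -x ^ Fintype.card F := fun x =>
    map_neg (FiniteField.frobeniusAlgHom F K) x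
  have hη : η ^ Fintype.card F = (-1) ^ (N - 1) * η := by
    rcases sq_eq_sq_iff_eq_or_eq_neg.mp hsq with e | e
    · rw [← e]; exact hδ1
    · rw [e, hneg] at hδ1
      linear_combination -hδ1
  have hcmp : ((-1 : K)) ^ (N - 1) = (-1) ^ (d - 1) := mul_right_cancel₀ hη0 (hη.symm.trans hη1)
  rcases Nat.even_or_odd (N - 1) with h1 | h1
  · have h3 : Odd (d - 1) := by
      rw [Nat.odd_iff]; rw [Nat.even_iff] at h1; omega
    rw [h1.neg_one_pow, h3.neg_one_pow] at hcmp
    exact h2K (by linear_combination hcmp)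
  · have h3 : Even (d - 1) := by
      rw [Nat.even_iff]; rw [Nat.odd_iff] at h1; omega
    rw [h1.neg_one_pow, h3.neg_one_pow] at hcmp
    exact h2K (by linear_combination -hcmp)

end Pool.Agent.H48G
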